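import Pool.Agent.P8H90.AP.Defs

/-!
# Project AP, package EK: closure properties of the class `EFK`
-/

set_option autoImplicit false

open PowerSeries Finset.HasAntidiagonal

namespace Pool.Agent.P8H44.AP

open Pool.Agent.P8H90.AP

section

set_option linter.unusedSectionVars false

variable {K : Type} [Field K] [CharZero K]

/-- `m!` times the coefficient -/
noncomputable def ck (m : ℕ) (f : K⟦X⟧) : K := (m.factorial : K) * coeff m f

lemma ck_mul (m : ℕ) (f g : K⟦X⟧) :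
    ck m (f * g) = ∑ p ∈ antidiagonal m, (m.choose p.1 : K) * (ck p.1 f * ck p.2 g) := by
  rw [ck, coeff_mul, Finset.mul_sum]
  refine Finset.sum_congr rfl fun p hp => ?_
  rw [Finset.HasAntidiagonal.mem_antidiagonal] at hp
  have h1 : (m.choose p.1 : K) * ((p.1.factorial : K) * (p.2.factorial : K)) = (m.factorial : K) := by
    have h2 := Nat.choose_mul_factorial_mul_factorial (show p.1 ≤ m by omega)
    have h3 : m - p.1 = p.2 := by omega
    rw [h3] at h2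
    rw [← h2]
    push_cast
    ring
  rw [← h1, ck, ck]
  ring

/-- enlarging the constant -/
lemma EFK.mono {ι : K →+* ℂ} {y : K⟦X⟧} {C : ℝ} (hC : 1 ≤ C)
    (h1 : ∀ m, ‖ι (ck m y)‖ ≤ C ^ (m + 1))
    (h2 : ∀ m, ∃ d : ℕ, 0 < d ∧ (d : ℝ) ≤ C ^ (m + 1) ∧ ∀ j ≤ m, IsIntegral ℤ ((d : K) * ck j y))
    {C' : ℝ} (hCC : C ≤ C') : 1 ≤ C' ∧ (∀ m, ‖ι (ck m y)‖ ≤ C' ^ (m + 1)) ∧
    ∀ m, ∃ d : ℕ, 0 < d ∧ (d : ℝ) ≤ C' ^ (m + 1) ∧ ∀ j ≤ m, IsIntegral ℤ ((d : K) * ck j y) := by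
  refine ⟨hC.trans hCC, fun m => (h1 m).trans (pow_le_pow_left₀ (by linarith) hCC _), fun m => ?_⟩
  obtain ⟨d, hd, hdC, hi⟩ := h2 m
  exact ⟨d, hd, hdC.trans (pow_le_pow_left₀ (by linarith) hCC _), hi⟩

/-- a common constant for two series -/
lemma EFK.two {ι : K →+* ℂ} {y z : K⟦X⟧} (hy : EFK ι y) (hz : EFK ι z) : ∃ C : ℝ, 1 ≤ C ∧
    ((∀ m, ‖ι (ck m y)‖ ≤ C ^ (m + 1)) ∧
    ∀ m, ∃ d : ℕ, 0 < d ∧ (d : ℝ) ≤ C ^ (m + 1) ∧ ∀ j ≤ m, IsIntegral ℤ ((d : K) * ck j y)) ∧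
    ((∀ m, ‖ι (ck m z)‖ ≤ C ^ (m + 1)) ∧
    ∀ m, ∃ d : ℕ, 0 < d ∧ (d : ℝ) ≤ C ^ (m + 1) ∧ ∀ j ≤ m, IsIntegral ℤ ((d : K) * ck j z)) := by
  obtain ⟨C1, hC1, h1, d1⟩ := hy
  obtain ⟨C2, hC2, h2, d2⟩ := hz
  obtain ⟨hC, a⟩ := EFK.mono hC1 h1 d1 (le_max_left C1 C2)
  obtain ⟨-, b⟩ := EFK.mono hC2 h2 d2 (le_max_right C1 C2)
  exact ⟨_, hC, a, b⟩

lemma EFK.add {ι : K →+* ℂ} {y z : K⟦X⟧} (hy : EFK ι y) (hz : EFK ι z) : EFK ι (y + z) := by
  obtain ⟨C, hC, ⟨h1, d1⟩, h2, d2⟩ := EFK.two hy hz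
  have hadd : ∀ m, ck m (y + z) = ck m y + ck m z := by
    intro m; rw [ck, ck, ck, map_add]; ring
  have h2C : 2 * C ≤ 2 * C ^ 2 := by nlinarith
  refine ⟨2 * C ^ 2, by nlinarith, fun m => ?_, fun m => ?_⟩
  · change ‖ι (ck m (y + z))‖ ≤ _
    rw [hadd, map_add]
    refine (norm_add_le _ _).trans ((add_le_add (h1 m) (h2 m)).trans ?_)
    calc C ^ (m + 1) + C ^ (m + 1) = 2 * C ^ (m + 1) := by ring
      _ ≤ 2 ^ (m + 1) * C ^ (m + 1) := by
        refine mul_le_mul_of_nonneg_right ?_ (by positivity)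
        calc (2 : ℝ) = 2 ^ 1 := by norm_num
          _ ≤ 2 ^ (m + 1) := pow_le_pow_right₀ (by norm_num) (by omega)
      _ = (2 * C) ^ (m + 1) := by rw [mul_pow]
      _ ≤ (2 * C ^ 2) ^ (m + 1) := pow_le_pow_left₀ (by positivity) h2C _
  · obtain ⟨e1, he1, he1C, he1i⟩ := d1 m
    obtain ⟨e2, he2, he2C, he2i⟩ := d2 m
    refine ⟨e1 * e2, Nat.mul_pos he1 he2, ?_, fun j hj => ?_⟩
    · push_cast
      calc (e1 : ℝ) * e2 ≤ C ^ (m + 1) * C ^ (m + 1) :=
            mul_le_mul he1C he2C (by positivity) (by positivity)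
        _ = (C ^ 2) ^ (m + 1) := by rw [← mul_pow, ← sq]
        _ ≤ (2 * C ^ 2) ^ (m + 1) := pow_le_pow_left₀ (by positivity) (by nlinarith [sq_nonneg C]) _
    · change IsIntegral ℤ (((e1 * e2 : ℕ) : K) * ck j (y + z))
      rw [hadd]
      have h : ((e1 * e2 : ℕ) : K) * (ck j y + ck j z) =
          (e2 : K) * ((e1 : K) * ck j y) + (e1 : K) * ((e2 : K) * ck j z) := by
        push_cast; ring
      rw [h]
      exact ((isIntegral_natCast _).mul (he1i j hj)).add ((isIntegral_natCast _).mul (he2i j hj))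

lemma EFK.mul {ι : K →+* ℂ} {y z : K⟦X⟧} (hy : EFK ι y) (hz : EFK ι z) : EFK ι (y * z) := by
  obtain ⟨C, hC0, ⟨h1, d1⟩, h2, d2⟩ := EFK.two hy hz
  have hC2' : C ^ 2 ≤ 2 * C ^ 2 := by nlinarith [sq_nonneg C]
  refine ⟨2 * C ^ 2, by nlinarith, fun m => ?_, fun m => ?_⟩
  · change ‖ι (ck m (y * z))‖ ≤ _
    rw [ck_mul, map_sum]
    refine (norm_sum_le _ _).trans ?_
    have h3 : ∀ p ∈ antidiagonal m, ‖ι ((m.choose p.1 : K) * (ck p.1 y * ck p.2 z))‖ ≤
        (m.choose p.1 : ℝ) * C ^ (m + 2) := by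
      intro p hp
      rw [Finset.HasAntidiagonal.mem_antidiagonal] at hp
      rw [map_mul, map_mul, map_natCast, norm_mul, norm_mul, Complex.norm_natCast]
      refine mul_le_mul_of_nonneg_left ?_ (by positivity)
      refine (mul_le_mul (h1 _) (h2 _) (norm_nonneg _) (by positivity)).trans (le_of_eq ?_)
      rw [← pow_add]; congr 1; omega
    refine (Finset.sum_le_sum h3).trans ?_
    rw [← Finset.sum_mul]
    have h4 : ∑ p ∈ antidiagonal m, (m.choose p.1 : ℝ) = 2 ^ m := by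
      rw [Finset.Nat.sum_antidiagonal_eq_sum_range_succ_mk]
      exact_mod_cast Nat.sum_range_choose m
    rw [h4, mul_pow, ← pow_mul]
    refine mul_le_mul (pow_le_pow_right₀ (by norm_num) (by omega)) (pow_le_pow_right₀ hC0 (by omega))
      (by positivity) (by positivity)
  · obtain ⟨e1, he1, he1C, he1i⟩ := d1 m
    obtain ⟨e2, he2, he2C, he2i⟩ := d2 m
    refine ⟨e1 * e2, Nat.mul_pos he1 he2, ?_, fun j hj => ?_⟩
    · push_cast
      calc (e1 : ℝ) * e2 ≤ C ^ (m + 1) * C ^ (m + 1) :=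
            mul_le_mul he1C he2C (by positivity) (by positivity)
        _ = (C ^ 2) ^ (m + 1) := by rw [← mul_pow, ← sq]
        _ ≤ (2 * C ^ 2) ^ (m + 1) := pow_le_pow_left₀ (by positivity) hC2' _
    · change IsIntegral ℤ (((e1 * e2 : ℕ) : K) * ck j (y * z))
      rw [ck_mul, Finset.mul_sum]
      refine IsIntegral.sum _ fun p hp => ?_
      rw [Finset.HasAntidiagonal.mem_antidiagonal] at hp
      have h : ((e1 * e2 : ℕ) : K) * ((j.choose p.1 : K) * (ck p.1 y * ck p.2 z)) =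
          (j.choose p.1 : K) * (((e1 : K) * ck p.1 y) * ((e2 : K) * ck p.2 z)) := by
        push_cast; ring
      rw [h]
      exact (isIntegral_natCast _).mul ((he1i _ (by omega)).mul (he2i _ (by omega)))

/-- denominators of algebraic numbers -/
lemma exists_den (a : K) (ha : IsAlgebraic ℚ a) : ∃ D : ℕ, 0 < D ∧ IsIntegral ℤ ((D : K) * a) := by
  have h1 : IsAlgebraic ℤ a := (IsFractionRing.isAlgebraic_iff ℤ ℚ K).2 ha
  obtain ⟨n, hn, h2⟩ := h1.exists_integral_multiple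
  refine ⟨n.natAbs, Int.natAbs_pos.2 hn, ?_⟩
  have h3 : IsIntegral ℤ ((n : K) * a) := by
    have : (n : K) * a = n • a := by rw [zsmul_eq_mul]
    rw [this]; exact h2
  rcases Int.natAbs_eq n with h | h
  · have : ((n.natAbs : ℕ) : K) = (n : K) := by
      rw [h]; push_cast; simp
    rw [this]; exact h3
  · have : ((n.natAbs : ℕ) : K) * a = -((n : K) * a) := by
      have h4 : (n : K) = -((n.natAbs : ℕ) : K) := by
        have h5 : ((n : ℤ) : K) = ((-((n.natAbs : ℕ) : ℤ) : ℤ) : K) := congrArg _ h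
        rw [h5, Int.cast_neg, Int.cast_natCast]
      rw [h4]; ring
    rw [this]; exact h3.neg

lemma isAlg_of (ι : K →+* ℂ) (hι : ∀ a : K, IsAlgebraic ℚ (ι a)) (a : K) : IsAlgebraic ℚ a := by
  obtain ⟨p, hp, h⟩ := hι a
  refine ⟨p, hp, ?_⟩
  apply ι.injective
  rw [map_zero, ← h]
  rw [Polynomial.aeval_def, Polynomial.aeval_def, Polynomial.hom_eval₂]
  congr 1
  exact Subsingleton.elim _ _

/-- a power bounds the absolute value and the denominators -/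
lemma exists_bd (ι : K →+* ℂ) (hι : ∀ a : K, IsAlgebraic ℚ (ι a)) (a : K) :
    ∃ (D : ℕ) (C : ℝ), 1 ≤ C ∧ 0 < D ∧ (D : ℝ) ≤ C ∧ ‖ι a‖ ≤ C ∧ IsIntegral ℤ ((D : K) * a) := by
  obtain ⟨D, hD, hi⟩ := exists_den a (isAlg_of ι hι a)
  have hD1 : (1 : ℝ) ≤ D := by exact_mod_cast hD
  refine ⟨D, D + ‖ι a‖, by linarith [norm_nonneg (ι a)], hD, by linarith [norm_nonneg (ι a)], by linarith, hi⟩

lemma EFK.C (ι : K →+* ℂ) (hι : ∀ a : K, IsAlgebraic ℚ (ι a)) (a : K) : EFK ι (PowerSeries.C a) := by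
  obtain ⟨D, B, hB, hD, hDB, hb, hi⟩ := exists_bd ι hι a
  have hck : ∀ m, ((m.factorial : K) * coeff m (PowerSeries.C a)) = if m = 0 then a else 0 := by
    intro m
    rw [coeff_C]
    split_ifs with h
    · rw [h]; simp
    · rw [mul_zero]
  refine ⟨B, hB, fun m => ?_, fun m => ⟨D, hD, ?_, fun j _ => ?_⟩⟩
  · rw [hck]
    have h1 : B ≤ B ^ (m + 1) := le_self_pow₀ hB (by omega)
    split_ifs
    · exact hb.trans h1
    · rw [map_zero, norm_zero]; positivity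
  · exact hDB.trans (le_self_pow₀ hB (by omega))
  · rw [hck]
    split_ifs
    · exact hi
    · rw [mul_zero]; exact isIntegral_zero

lemma isIntegral_pow_mul {D : ℕ} {a : K} (hi : IsIntegral ℤ ((D : K) * a)) {j m : ℕ} (hj : j ≤ m) :
    IsIntegral ℤ ((D : K) ^ m * a ^ j) := by
  have h : (D : K) ^ m * a ^ j = (D : K) ^ (m - j) * ((D : K) * a) ^ j := by
    have : (D : K) ^ m = (D : K) ^ (m - j) * (D : K) ^ j := by rw [← pow_add]; congr 1; omega
    rw [this, mul_pow]; ring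
  rw [h]
  exact ((isIntegral_natCast _).pow _).mul (hi.pow _)

lemma EFK.ex (ι : K →+* ℂ) (hι : ∀ a : K, IsAlgebraic ℚ (ι a)) (a : K) :
    EFK ι (Pool.Agent.P8H90.AP.ex a) := by
  obtain ⟨D, B, hB, hD, hDB, hb, hi⟩ := exists_bd ι hι a
  have hck : ∀ m, ((m.factorial : K) * coeff m (Pool.Agent.P8H90.AP.ex a)) = a ^ m := by
    intro m
    rw [Pool.Agent.P8H90.AP.ex, coeff_mk]
    have : (m.factorial : K) ≠ 0 := by exact_mod_cast m.factorial_ne_zero
    field_simp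
  refine ⟨B, hB, fun m => ?_, fun m => ⟨D ^ m, by positivity, ?_, fun j hj => ?_⟩⟩
  · rw [hck, map_pow, norm_pow]
    exact (pow_le_pow_left₀ (norm_nonneg _) hb m).trans (pow_le_pow_right₀ hB (by omega))
  · push_cast
    exact (pow_le_pow_left₀ (by positivity) hDB m).trans (pow_le_pow_right₀ hB (by omega))
  · rw [hck]
    push_cast
    exact isIntegral_pow_mul hi hj

lemma EFK.gl (ι : K →+* ℂ) (hι : ∀ a : K, IsAlgebraic ℚ (ι a)) (l : ℕ) (a : K) :
    EFK ι (Pool.Agent.P8H90.AP.gl l a) := by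
  obtain ⟨D, B, hB, hD, hDB, hb, hi⟩ := exists_bd ι hι a
  have hck : ∀ m, ((m.factorial : K) * coeff m (Pool.Agent.P8H90.AP.gl l a)) =
      if m = 0 then 0 else -(-a) ^ m / (m : K) ^ l := by
    intro m
    rw [Pool.Agent.P8H90.AP.gl, coeff_mk]
    have : (m.factorial : K) ≠ 0 := by exact_mod_cast m.factorial_ne_zero
    split_ifs
    · rw [mul_zero]
    · field_simp
  set C : ℝ := B * (2 ^ 8) ^ l with hC
  have hb1 : (1 : ℝ) ≤ (2 ^ 8 : ℝ) ^ l := one_le_pow₀ (by norm_num)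
  have hC1 : 1 ≤ C := one_le_mul_of_one_le_of_one_le hB hb1
  have hBC : B ≤ C := le_mul_of_one_le_right (by linarith) hb1
  refine ⟨C, hC1, fun m => ?_, fun m => ⟨D ^ m * Nat.lcmUpto m ^ l, ?_, ?_, fun j hj => ?_⟩⟩
  · rw [hck]
    split_ifs with h
    · rw [map_zero, norm_zero]; positivity
    · rw [map_div₀, map_neg, map_pow, map_neg, map_pow, map_natCast, norm_div, norm_neg, norm_pow, norm_neg,
        norm_pow, Complex.norm_natCast]
      have hm1 : (1 : ℝ) ≤ (m : ℝ) ^ l := one_le_pow₀ (by exact_mod_cast Nat.pos_of_ne_zero h)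
      refine (div_le_self (by positivity) hm1).trans ?_
      exact (pow_le_pow_left₀ (norm_nonneg _) (hb.trans hBC) m).trans (pow_le_pow_right₀ hC1 (by omega))
  · exact Nat.mul_pos (by positivity) (pow_pos (Nat.lcmUpto_pos m) _)
  · push_cast
    have h2 : (Nat.lcmUpto m : ℝ) ^ l ≤ ((2 ^ 8 : ℝ) ^ l) ^ m := by
      rw [← pow_mul, mul_comm l m, pow_mul]
      exact pow_le_pow_left₀ (by positivity) (Pool.Agent.R352.E.lcm_bound m) l
    calc (D : ℝ) ^ m * (Nat.lcmUpto m : ℝ) ^ l ≤ B ^ m * ((2 ^ 8 : ℝ) ^ l) ^ m :=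
          mul_le_mul (pow_le_pow_left₀ (by positivity) hDB m) h2 (by positivity) (by positivity)
      _ = C ^ m := by rw [hC, mul_pow B]
      _ ≤ C ^ (m + 1) := pow_le_pow_right₀ hC1 (by omega)
  · rw [hck]
    split_ifs with h
    · rw [mul_zero]; exact isIntegral_zero
    · have hd : j ∣ Nat.lcmUpto m := Finset.dvd_lcm (f := id) (Finset.mem_Icc.2 ⟨by omega, hj⟩)
      obtain ⟨c, hc⟩ := hd
      have hj0 : (j : K) ≠ 0 := by exact_mod_cast h
      have e : ((D ^ m * Nat.lcmUpto m ^ l : ℕ) : K) * (-(-a) ^ j / (j : K) ^ l) =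
          ((-(-1) ^ j * (c : ℤ) ^ l : ℤ) : K) * ((D : K) ^ m * a ^ j) := by
        rw [hc]
        push_cast
        rw [mul_pow, neg_pow a]
        field_simp
      rw [e]
      exact (isIntegral_intCast _).mul (isIntegral_pow_mul hi hj)

end

theorem ek : S_EK := by
  intro K _ _ ι hι
  exact ⟨fun y z hy hz => EFK.add hy hz, fun y z hy hz => EFK.mul hy hz, fun a => EFK.C ι hι a,
    fun a => EFK.ex ι hι a, fun l a => EFK.gl ι hι l a⟩

end Pool.Agent.P8H44.AP
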