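import Pool.Agent.P8H90.AP.Defs

/-!
# Project AP, package EV: values at one
-/

set_option autoImplicit false

open PowerSeries Finset.HasAntidiagonal

namespace Pool.Agent.P8H44.AP

open Pool.Agent.P8H90.AP
open Pool.Agent.R352.E (cf EF)
open Pool.Agent.Y113 (ev)

section

set_option linter.unusedSectionVars false

variable {K : Type} [Field K] [CharZero K]

lemma EFK_summable {ι : K →+* ℂ} {y : K⟦X⟧} (hy : EFK ι y) :
    Summable fun m => ‖ι (coeff m y)‖ := by
  obtain ⟨C, hC, h, -⟩ := hy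
  have hs : Summable fun m : ℕ => C * (C ^ m / (m.factorial : ℝ)) :=
    (Real.summable_pow_div_factorial C).mul_left C
  refine Summable.of_nonneg_of_le (fun _ => norm_nonneg _) (fun m => ?_) hs
  have h1 := h m
  rw [map_mul, norm_mul, map_natCast, Complex.norm_natCast] at h1
  have h2 : (0 : ℝ) < m.factorial := by exact_mod_cast m.factorial_pos
  rw [← mul_div_assoc, le_div_iff₀ h2, ← pow_succ']
  linarith

lemma ev_add {ι : K →+* ℂ} {y z : K⟦X⟧} (hy : EFK ι y) (hz : EFK ι z) :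
    evK ι (y + z) = evK ι y + evK ι z := by
  unfold evK
  rw [← Summable.tsum_add (EFK_summable hy).of_norm (EFK_summable hz).of_norm]
  exact tsum_congr fun m => by rw [map_add, map_add]

lemma ev_mul {ι : K →+* ℂ} {y z : K⟦X⟧} (hy : EFK ι y) (hz : EFK ι z) :
    evK ι (y * z) = evK ι y * evK ι z := by
  unfold evK
  rw [tsum_mul_tsum_eq_tsum_sum_antidiagonal_of_summable_norm (EFK_summable hy) (EFK_summable hz)]
  refine tsum_congr fun m => ?_
  rw [coeff_mul, map_sum]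
  exact Finset.sum_congr rfl fun p _ => by rw [map_mul]

lemma ev_C (ι : K →+* ℂ) (a : K) : evK ι (PowerSeries.C a) = ι a := by
  unfold evK
  rw [tsum_eq_single 0]
  · simp
  · intro m hm
    rw [coeff_C, if_neg hm, map_zero]

lemma rat_coe (ι : K →+* ℂ) (q : ℚ) : ι (algebraMap ℚ K q) = ((q : ℝ) : ℂ) := by
  rw [← RingHom.comp_apply, eq_ratCast]
  push_cast
  rfl

lemma EF_of {ι : K →+* ℂ} {y₀ : ℚ⟦X⟧} (h : EFK ι (PowerSeries.map (algebraMap ℚ K) y₀)) : EF y₀ := by
  obtain ⟨C, hC, h1, h2⟩ := h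
  have hcf : ∀ m, (m.factorial : K) * coeff m (PowerSeries.map (algebraMap ℚ K) y₀) =
      algebraMap ℚ K (cf m y₀) := by
    intro m
    rw [coeff_map, cf, map_mul, map_natCast]
  refine ⟨C, hC, fun m => ?_, fun m => ?_⟩
  · have h3 := h1 m
    rw [hcf, rat_coe, Complex.norm_real, Real.norm_eq_abs] at h3
    exact h3
  · obtain ⟨d, hd, hdC, hi⟩ := h2 m
    refine ⟨d, hd, hdC, fun j hj => ?_⟩
    have h3 := hi j hj
    rw [hcf] at h3
    have h4 : (d : K) * algebraMap ℚ K (cf j y₀) = algebraMap ℚ K ((d : ℚ) * cf j y₀) := by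
      rw [map_mul, map_natCast]
    rw [h4] at h3
    have h5 : IsIntegral ℤ ((d : ℚ) * cf j y₀) :=
      (isIntegral_algebraMap_iff (algebraMap ℚ K).injective).1 h3
    obtain ⟨a, ha⟩ := IsIntegrallyClosed.isIntegral_iff.1 h5
    exact ⟨a, by rw [← ha]; simp⟩

lemma ev_rat (ι : K →+* ℂ) (y₀ : ℚ⟦X⟧) :
    evK ι (PowerSeries.map (algebraMap ℚ K) y₀) = ((ev 1 y₀ : ℝ) : ℂ) := by
  unfold evK ev
  rw [Complex.ofReal_tsum]
  refine tsum_congr fun m => ?_
  rw [coeff_map, rat_coe]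
  simp

end

theorem ev_thm : S_EV := by
  intro K _ _ ι
  exact ⟨fun y z hy hz => ev_add hy hz, fun y z hy hz => ev_mul hy hz, fun a => ev_C ι a,
    fun y₀ h => EF_of h, fun y₀ => ev_rat ι y₀⟩

end Pool.Agent.P8H44.AP
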